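import Pool.Agent.Helper77.SGC.Goals

/-!
# Project SG (MP_a41896_nt), packet SGC-MON (helper96)
-/

set_option autoImplicit false

namespace Pool.Agent.Helper96.SGC

open Pool.Agent.Helper77.SGC

theorem mon_aux (a a' : ℝ) (x x' k n : ℕ) (ha' : 1 ≤ a') (haa : a' ≤ a) (hx : x ≤ n)
    (h : x + x' + k ≤ 2 * n) : a ^ x * a' ^ (x' + k) ≤ (a * a') ^ n := by
  have ha : 1 ≤ a := ha'.trans haa
  have ha0 : 0 ≤ a := zero_le_one.trans ha
  have ha0' : 0 ≤ a' := zero_le_one.trans ha'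
  rw [mul_pow]
  rcases le_or_gt (x' + k) n with h1 | h1
  · exact mul_le_mul (pow_le_pow_right₀ ha hx) (pow_le_pow_right₀ ha' h1) (pow_nonneg ha0' _)
      (pow_nonneg ha0 _)
  · obtain ⟨E, hE⟩ := Nat.exists_eq_add_of_lt h1
    have hE' : x' + k = n + (E + 1) := by omega
    have hE2 : x + (E + 1) ≤ n := by omega
    have h2 : a' ^ (E + 1) ≤ a ^ (E + 1) := pow_le_pow_left₀ ha0' haa _
    calc a ^ x * a' ^ (x' + k) = (a ^ x * a' ^ (E + 1)) * a' ^ n := by
          rw [hE', pow_add a' n (E + 1)]; ring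
      _ ≤ (a ^ x * a ^ (E + 1)) * a' ^ n := by gcongr
      _ = a ^ (x + (E + 1)) * a' ^ n := by rw [pow_add a x (E + 1)]
      _ ≤ a ^ n * a' ^ n := by
          have := pow_le_pow_right₀ ha hE2
          gcongr

/-- **MON** -/
theorem mon : MON := by
  intro a a' x x' k n ha ha' hx hx' h
  rcases le_total a' a with haa | haa
  · rw [min_eq_right haa, le_div_iff₀ (by positivity)]
    have h1 := mon_aux a a' x x' k n ha' haa hx h
    calc a ^ x * a' ^ x' * a' ^ k = a ^ x * a' ^ (x' + k) := by rw [pow_add]; ring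
      _ ≤ (a * a') ^ n := h1
  · rw [min_eq_left haa, le_div_iff₀ (by positivity)]
    have h1 := mon_aux a' a x' x k n ha haa hx' (by omega)
    calc a ^ x * a' ^ x' * a ^ k = a' ^ x' * a ^ (x + k) := by rw [pow_add]; ring
      _ ≤ (a' * a) ^ n := h1
      _ = (a * a') ^ n := by rw [mul_comm]

end Pool.Agent.Helper96.SGC
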